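import Mathlib

/-!
# Symmetrizing a matrix by permuting its rows: encoding of an involution with colours
-/

namespace Pool.Agent.R534.MSym

open Finset

/-- Labels: a copy number and a vertex. -/
abbrev Vx := ℕ × ℕ × ℕ

/-- Labels of rows and columns. -/
abbrev Lb := ℕ × Vx

/-- `p` permutes the members of `l` and `A (p x) y = A (p y) x`. -/
def SymP {α : Type} (l : List α) (A : α → α → Bool) (p : α → α) : Prop :=
  Set.BijOn p {x | x ∈ l} {x | x ∈ l} ∧ ∀ x ∈ l, ∀ y ∈ l, A (p x) y = A (p y) x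

section

variable (VL : List Vx) (cl : Vx → ℕ) (D N : ℕ) (B : Vx → Vx → Bool)

/-- The weight of a label. -/
def wt (x : Lb) : ℕ := (3 * cl x.2 + x.1) * D

/-- The matrix. -/
def AA (x y : Lb) : Bool :=
  if x.1 = 3 then (if y.1 = 3 then true else decide (x.2.1 < wt cl D y))
  else if y.1 = 3 then decide (y.2.1 < wt cl D x)
  else if x.1 = y.1 then (if x.1 = 0 then B x.2 y.2 else false)
  else decide (x.2 = y.2)

/-- The list of the labels. -/
def FL : List Lb :=
  (List.range 3).flatMap (fun s => VL.map (fun v => (s, v))) ++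
    (List.range N).map (fun e => (3, e, 0, 0))

variable {VL cl D N B}

theorem mem_FL {x : Lb} : x ∈ FL VL N ↔ (x.1 < 3 ∧ x.2 ∈ VL) ∨ ∃ e < N, x = (3, e, 0, 0) := by
  unfold FL
  simp only [List.mem_append, List.mem_flatMap, List.mem_range, List.mem_map]
  constructor
  · rintro (⟨s, hs, v, hv, rfl⟩ | ⟨e, he, rfl⟩)
    · exact Or.inl ⟨hs, hv⟩
    · exact Or.inr ⟨e, he, rfl⟩
  · rintro (⟨h1, h2⟩ | ⟨e, he, rfl⟩)
    · exact Or.inl ⟨x.1, h1, x.2, h2, rfl⟩
    · exact Or.inr ⟨e, he, rfl⟩

theorem nodup_FL (h : VL.Nodup) : (FL VL N).Nodup := by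
  unfold FL
  rw [List.nodup_append]
  refine ⟨?_, ?_, ?_⟩
  · rw [List.nodup_flatMap]
    refine ⟨fun s _ => h.map (fun v w hvw => (Prod.mk.inj hvw).2), ?_⟩
    refine List.nodup_range.pairwise_of_forall_ne (fun s _ t _ hst => ?_)
    intro x hx hx'
    simp only [List.mem_map] at hx hx'
    obtain ⟨v, _, rfl⟩ := hx
    obtain ⟨w, _, hw⟩ := hx'
    exact hst (Prod.mk.inj hw).1.symm
  · exact List.nodup_range.map (fun e e' h => (Prod.mk.inj (Prod.mk.inj h).2).1)
  · intro x hx y hy hxy
    subst hxy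
    simp only [List.mem_flatMap, List.mem_range, List.mem_map] at hx hy
    obtain ⟨s, hs, v, _, rfl⟩ := hx
    obtain ⟨e, _, he⟩ := hy
    have := (Prod.mk.inj he).1
    omega

/-! ### From a symmetrizing permutation to an involution -/

theorem count_eq {l : List Lb} {A : Lb → Lb → Bool} {p : Lb → Lb} (h : SymP l A p) {x : Lb}
    (hx : x ∈ l) : (l.toFinset.filter (fun y => A (p x) y = true)).card =
      (l.toFinset.filter (fun y => A y x = true)).card := by
  obtain ⟨h1, h2⟩ := h
  refine Finset.card_bij (fun y _ => p y) ?_ ?_ ?_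
  · intro y hy
    rw [Finset.mem_filter, List.mem_toFinset] at hy ⊢
    exact ⟨h1.1 hy.1, by rw [← h2 x hx y hy.1]; exact hy.2⟩
  · intro y hy z hz hyz
    rw [Finset.mem_filter, List.mem_toFinset] at hy hz
    exact h1.2.1 hy.1 hz.1 hyz
  · intro y hy
    rw [Finset.mem_filter, List.mem_toFinset] at hy
    obtain ⟨z, hz, rfl⟩ := h1.2.2 hy.1
    refine ⟨z, ?_, rfl⟩
    rw [Finset.mem_filter, List.mem_toFinset]
    exact ⟨hz, by rw [h2 x hx z hz]; exact hy.2⟩

/-- A lower bound for the number of entries that are ones. -/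
theorem count_ge {P : Lb → Prop} [DecidablePred P] {w : ℕ} (hw : w ≤ N)
    (h : ∀ e < w, P (3, e, 0, 0)) : w ≤ ((FL VL N).toFinset.filter P).card := by
  calc w = ((range w).image (fun e => ((3, e, 0, 0) : Lb))).card := by
        rw [Finset.card_image_of_injective _
          (fun e e' h => (Prod.mk.inj (Prod.mk.inj h).2).1), Finset.card_range]
    _ ≤ _ := by
        refine Finset.card_le_card (fun x hx => ?_)
        rw [Finset.mem_image] at hx
        obtain ⟨e, he, rfl⟩ := hx
        rw [Finset.mem_range] at he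
        rw [Finset.mem_filter, List.mem_toFinset, mem_FL]
        exact ⟨Or.inr ⟨e, by omega, rfl⟩, h e he⟩

/-- An upper bound for the number of entries that are ones. -/
theorem count_le {P : Lb → Prop} [DecidablePred P] {w : ℕ}
    (h : ∀ e < N, P (3, e, 0, 0) → e < w) :
    ((FL VL N).toFinset.filter P).card ≤ w + 3 * VL.length := by
  calc ((FL VL N).toFinset.filter P).card ≤ ((range w).image (fun e => ((3, e, 0, 0) : Lb)) ∪
        (range 3) ×ˢ VL.toFinset).card := by
        refine Finset.card_le_card (fun x hx => ?_)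
        rw [Finset.mem_filter, List.mem_toFinset, mem_FL] at hx
        rw [Finset.mem_union, Finset.mem_image, Finset.mem_product, Finset.mem_range,
          List.mem_toFinset]
        rcases hx.1 with h1 | ⟨e, he, rfl⟩
        · exact Or.inr h1
        · exact Or.inl ⟨e, Finset.mem_range.2 (h e he hx.2), rfl⟩
    _ ≤ w + 3 * VL.length := by
        refine (Finset.card_union_le _ _).trans (Nat.add_le_add ?_ ?_)
        · exact Finset.card_image_le.trans (by rw [Finset.card_range])
        · rw [Finset.card_product, Finset.card_range]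
          exact Nat.mul_le_mul_left _ (List.toFinset_card_le _)

theorem mul_window {a b D : ℕ} (h1 : a * D < b * D + D) (h2 : b * D < a * D + D) : a = b := by
  have h3 : a * D < (b + 1) * D := by rw [Nat.add_mul]; omega
  have h4 : b * D < (a + 1) * D := by rw [Nat.add_mul]; omega
  have h5 := lt_of_mul_lt_mul_right h3 (Nat.zero_le _)
  have h6 := lt_of_mul_lt_mul_right h4 (Nat.zero_le _)
  omega

theorem classes (hD : 3 * VL.length < D)
    (hN : ∀ v ∈ VL, ∀ s < 3, (3 * cl v + s) * D + D ≤ N) {p : Lb → Lb}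
    (hp : SymP (FL VL N) (AA cl D B) p) {s : ℕ} {v : Vx} (hs : s < 3) (hv : v ∈ VL) :
    (p (s, v)).1 = s ∧ (p (s, v)).2 ∈ VL ∧ cl (p (s, v)).2 = cl v := by
  have hx : (s, v) ∈ FL VL N := mem_FL.2 (Or.inl ⟨hs, hv⟩)
  have hc := count_eq hp hx
  have hWN := hN v hv s hs
  have h1 : wt cl D (s, v) ≤ ((FL VL N).toFinset.filter
      (fun y => AA cl D B y (s, v) = true)).card := by
    refine count_ge (by unfold wt; simp only; omega) (fun e he => ?_)
    unfold AA
    rw [if_pos rfl, if_neg (show ¬ s = 3 by omega)]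
    simpa using he
  have h2 : ((FL VL N).toFinset.filter (fun y => AA cl D B y (s, v) = true)).card ≤
      wt cl D (s, v) + 3 * VL.length := by
    refine count_le (fun e _ he => ?_)
    unfold AA at he
    rw [if_pos rfl, if_neg (show ¬ s = 3 by omega)] at he
    simpa using he
  have hpx := hp.1.1 hx
  rcases mem_FL.1 hpx with ⟨h3, h4⟩ | ⟨e, he, h3⟩
  · have hWN' := hN _ h4 _ h3
    have h5 : wt cl D (p (s, v)) ≤ ((FL VL N).toFinset.filter
        (fun y => AA cl D B (p (s, v)) y = true)).card := by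
      refine count_ge (by unfold wt; omega) (fun e he => ?_)
      unfold AA
      rw [if_neg (by omega), if_pos rfl]
      simpa using he
    have h6 : ((FL VL N).toFinset.filter (fun y => AA cl D B (p (s, v)) y = true)).card ≤
        wt cl D (p (s, v)) + 3 * VL.length := by
      refine count_le (fun e _ he => ?_)
      unfold AA at he
      rw [if_neg (by omega), if_pos rfl] at he
      simpa using he
    have h7 : 3 * cl v + s = 3 * cl (p (s, v)).2 + (p (s, v)).1 := by
      refine mul_window (D := D) ?_ ?_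
      · change wt cl D (s, v) < wt cl D (p (s, v)) + D
        omega
      · change wt cl D (p (s, v)) < wt cl D (s, v) + D
        omega
    exact ⟨by omega, h4, by omega⟩
  · exfalso
    have h5 : N ≤ ((FL VL N).toFinset.filter
        (fun y => AA cl D B (p (s, v)) y = true)).card := by
      refine count_ge le_rfl (fun e' _ => ?_)
      unfold AA
      rw [h3, if_pos rfl, if_pos rfl]
    unfold wt at h2
    simp only at h2
    omega

theorem to_invol (hD : 3 * VL.length < D)
    (hN : ∀ v ∈ VL, ∀ s < 3, (3 * cl v + s) * D + D ≤ N) {p : Lb → Lb}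
    (hp : SymP (FL VL N) (AA cl D B) p) :
    ∃ ρ : Vx → Vx, (∀ v ∈ VL, ρ v ∈ VL ∧ ρ (ρ v) = v ∧ cl (ρ v) = cl v) ∧
      ∀ v ∈ VL, ∀ w ∈ VL, B (ρ v) w = B (ρ w) v := by
  have hcl := fun {s : ℕ} {v : Vx} => classes hD hN hp (s := s) (v := v)
  have hin : ∀ {s : ℕ} {v : Vx}, s < 3 → v ∈ VL → (s, v) ∈ FL VL N :=
    fun hs hv => mem_FL.2 (Or.inl ⟨hs, hv⟩)
  -- the identity blocks
  have key : ∀ s < 3, ∀ t < 3, s ≠ t → ∀ v ∈ VL, (p (t, (p (s, v)).2)).2 = v := by
    intro s hs t ht hst v hv
    obtain ⟨h1, h2, _⟩ := hcl hs hv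
    have h3 := hp.2 _ (hin hs hv) _ (hin ht h2)
    obtain ⟨h4, h5, _⟩ := hcl ht h2
    unfold AA at h3
    rw [if_neg (by omega), if_neg (by simp only; omega), if_neg (by simp only; omega),
      if_neg (by omega), if_neg (by simp only; omega), if_neg (by simp only; omega)] at h3
    simpa using h3.symm
  have hp0 : ∀ v ∈ VL, (p (0, (p (0, v)).2)).2 = v := by
    intro v hv
    have h2 : (p (2, v)).2 ∈ VL := (hcl (by omega) hv).2.1
    have h1 := key 2 (by omega) 1 (by omega) (by omega) v hv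
    have h3 := key 1 (by omega) 0 (by omega) (by omega) (p (2, v)).2 h2
    rw [h1] at h3
    rw [h3]
    exact key 2 (by omega) 0 (by omega) (by omega) v hv
  refine ⟨fun v => (p (0, v)).2, fun v hv => ?_, fun v hv w hw => ?_⟩
  · obtain ⟨_, h2, h3⟩ := hcl (by omega : 0 < 3) hv
    exact ⟨h2, hp0 v hv, h3⟩
  · have h3 := hp.2 _ (hin (by omega : 0 < 3) hv) _ (hin (by omega : 0 < 3) hw)
    obtain ⟨h4, _, _⟩ := hcl (by omega : 0 < 3) hv
    obtain ⟨h5, _, _⟩ := hcl (by omega : 0 < 3) hw
    unfold AA at h3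
    rw [if_neg (by omega), if_neg (by simp only; omega), if_pos (by simp only; omega),
      if_pos (by omega), if_neg (by omega), if_neg (by simp only; omega),
      if_pos (by simp only; omega), if_pos (by omega)] at h3
    exact h3

/-- From an involution to a symmetrizing permutation. -/
theorem of_invol {ρ : Vx → Vx} (h1 : ∀ v ∈ VL, ρ v ∈ VL ∧ ρ (ρ v) = v ∧ cl (ρ v) = cl v)
    (h2 : ∀ v ∈ VL, ∀ w ∈ VL, B (ρ v) w = B (ρ w) v) :
    SymP (FL VL N) (AA cl D B) (fun x => if x.1 = 3 then x else (x.1, ρ x.2)) := by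
  set p : Lb → Lb := fun x => if x.1 = 3 then x else (x.1, ρ x.2) with hpd
  have hmem : ∀ x ∈ FL VL N, p x ∈ FL VL N := by
    intro x hx
    rcases mem_FL.1 hx with ⟨h3, h4⟩ | ⟨e, he, rfl⟩
    · simp only [hpd]
      rw [if_neg (by omega)]
      exact mem_FL.2 (Or.inl ⟨h3, (h1 _ h4).1⟩)
    · exact hx
  have hinv : ∀ x ∈ FL VL N, p (p x) = x := by
    intro x hx
    rcases mem_FL.1 hx with ⟨h3, h4⟩ | ⟨e, he, rfl⟩
    · simp only [hpd]
      rw [if_neg (by omega : ¬ x.1 = 3), if_neg (by simp only; omega)]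
      simp only
      rw [(h1 _ h4).2.1]
    · rfl
  refine ⟨⟨hmem, ?_, ?_⟩, ?_⟩
  · intro x hx y hy hxy
    rw [← hinv x hx, ← hinv y hy, hxy]
  · intro x hx
    exact ⟨p x, hmem x hx, hinv x hx⟩
  · intro x hx y hy
    rcases mem_FL.1 hx with ⟨h3, h4⟩ | ⟨e, he, rfl⟩ <;>
      rcases mem_FL.1 hy with ⟨h5, h6⟩ | ⟨e', he', rfl⟩
    · simp only [hpd]
      rw [if_neg (by omega : ¬ x.1 = 3), if_neg (by omega : ¬ y.1 = 3)]
      unfold AA
      simp only
      rw [if_neg (by omega : ¬ x.1 = 3), if_neg (by omega : ¬ y.1 = 3),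
        if_neg (by omega : ¬ y.1 = 3), if_neg (by omega : ¬ x.1 = 3)]
      by_cases hxy : x.1 = y.1
      · rw [if_pos hxy, if_pos hxy.symm]
        by_cases h0 : x.1 = 0
        · rw [if_pos h0, if_pos (by omega)]
          exact h2 _ h4 _ h6
        · rw [if_neg h0, if_neg (by omega)]
      · rw [if_neg hxy, if_neg (fun h => hxy h.symm), decide_eq_decide]
        constructor
        · intro h
          rw [← h, (h1 _ h4).2.1]
        · intro h
          rw [← h, (h1 _ h6).2.1]
    · have hx3 : ¬ x.1 = 3 := by omega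
      simp only [hpd, AA, hx3, if_true, if_false, wt]
      rw [(h1 _ h4).2.2]
    · have hy3 : ¬ y.1 = 3 := by omega
      simp only [hpd, AA, hy3, if_true, if_false, wt]
      rw [(h1 _ h6).2.2]
    · simp [hpd, AA]

end

end Pool.Agent.R534.MSym
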