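import Pool.Agent.R534.MSym.Core

/-!
# Gadgets: exactly one of three literals
-/

namespace Pool.Agent.R534.MSym

/-- The three two-colourings of the cycle of length eight. -/
def ff (t j : ℕ) : ℕ :=
  if t = 0 then (if j % 4 = 1 ∨ j % 4 = 2 then 1 else 0)
  else if t = 1 then (if 2 ≤ j % 4 then 1 else 0)
  else j % 2

/-- Adjacency in the cycle of length eight. -/
def adj8 (j k : ℕ) : Bool := decide (k = (j + 1) % 8) || decide (j = (k + 1) % 8)

theorem ff_le (t j : ℕ) : ff t j < 2 := by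
  unfold ff
  split_ifs <;> omega

/-- The involutions of the cycle. -/
def rho (y : ℕ → Bool) (j : ℕ) : ℕ := if y 0 then (9 - j) % 8 else if y 1 then 7 - j else j

/-- Exactly one of the first three values is true. -/
def one3 (y : ℕ → Bool) : Prop :=
  (y 0 = true ∧ y 1 = false ∧ y 2 = false) ∨ (y 0 = false ∧ y 1 = true ∧ y 2 = false) ∨
    (y 0 = false ∧ y 1 = false ∧ y 2 = true)

theorem fin_a : ∀ j < 8, ∀ k < 8, ((9 - j) % 8 < 8 ∧ (9 - (9 - j) % 8) % 8 = j) ∧
    adj8 ((9 - j) % 8) k = adj8 ((9 - k) % 8) j ∧ ff 0 ((9 - j) % 8) = (ff 0 j + 1) % 2 ∧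
    ff 1 ((9 - j) % 8) = ff 1 j ∧ ff 2 ((9 - j) % 8) = (ff 2 j + 1) % 2 := by decide

theorem fin_b : ∀ j < 8, ∀ k < 8, (7 - j < 8 ∧ 7 - (7 - j) = j) ∧
    adj8 (7 - j) k = adj8 (7 - k) j ∧ ff 0 (7 - j) = ff 0 j ∧
    ff 1 (7 - j) = (ff 1 j + 1) % 2 ∧ ff 2 (7 - j) = (ff 2 j + 1) % 2 := by decide

theorem adj8_comm (j k : ℕ) : adj8 j k = adj8 k j := by
  unfold adj8
  rw [Bool.or_comm]

/-- The offset: the third colouring is exchanged if the bit is not set. -/
def of2 (t : ℕ) : ℕ := if t = 2 then 1 else 0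

theorem of2_0 : of2 0 = 0 := rfl

theorem of2_1 : of2 1 = 0 := rfl

theorem of2_2 : of2 2 = 1 := rfl

theorem rho_ok {y : ℕ → Bool} (h : one3 y) : ∀ j < 8, rho y j < 8 ∧ rho y (rho y j) = j ∧
    (∀ k < 8, adj8 (rho y j) k = adj8 (rho y k) j) ∧
    ∀ t < 3, ff t (rho y j) = (ff t j + of2 t + (y t).toNat) % 2 := by
  intro j hj
  rcases h with ⟨h0, h1, h2⟩ | ⟨h0, h1, h2⟩ | ⟨h0, h1, h2⟩
  · simp only [rho, h0, if_true]
    refine ⟨(fin_a j hj j hj).1.1, (fin_a j hj j hj).1.2, fun k hk => (fin_a j hj k hk).2.1, ?_⟩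
    intro t ht
    obtain ⟨_, _, h3, h4, h5⟩ := fin_a j hj j hj
    have h6 := ff_le t j
    interval_cases t
    · rw [h3, h0]; rfl
    · rw [h4, h1, of2_1, Bool.toNat_false]; omega
    · rw [h5, h2]; rfl
  · simp only [rho, h0, h1, if_true, Bool.false_eq_true, if_false]
    refine ⟨(fin_b j hj j hj).1.1, (fin_b j hj j hj).1.2, fun k hk => (fin_b j hj k hk).2.1, ?_⟩
    intro t ht
    obtain ⟨_, _, h3, h4, h5⟩ := fin_b j hj j hj
    have h6 := ff_le t j
    interval_cases t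
    · rw [h3, h0, of2_0, Bool.toNat_false]; omega
    · rw [h4, h1]; rfl
    · rw [h5, h2]; rfl
  · simp only [rho, h0, h1, Bool.false_eq_true, if_false]
    refine ⟨hj, trivial, fun k hk => adj8_comm j k, ?_⟩
    intro t ht
    have h6 := ff_le t j
    interval_cases t
    · rw [h0, of2_0, Bool.toNat_false]; omega
    · rw [h1, of2_1, Bool.toNat_false]; omega
    · rw [h2, of2_2, Bool.toNat_true]; omega

theorem shift2 : ∀ j < 8, ∀ k < 8, ff 0 k = (ff 0 j + 1) % 2 → ff 1 k = (ff 1 j + 1) % 2 →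
    k % 4 = (j + 2) % 4 := by decide

theorem rho_sound {y : ℕ → Bool} {f : ℕ → ℕ} (h1 : ∀ j < 8, f j < 8) (h2 : ∀ j < 8, f (f j) = j)
    (h3 : ∀ j < 8, ∀ k < 8, adj8 (f j) k = adj8 (f k) j)
    (h4 : ∀ j < 8, ∀ t < 3, ff t (f j) = (ff t j + of2 t + (y t).toNat) % 2) : one3 y := by
  -- parity
  have hpar : ∀ j, ff 2 j = (ff 0 j + ff 1 j) % 2 := by
    intro j
    unfold ff
    simp only [if_true, OfNat.ofNat_ne_zero, if_false, one_ne_zero, OfNat.ofNat_ne_one]
    split_ifs <;> omega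
  have ha := h4 0 (by omega) 0 (by omega)
  have hb := h4 0 (by omega) 1 (by omega)
  have hc := h4 0 (by omega) 2 (by omega)
  have hp0 := hpar 0
  have hpf := hpar (f 0)
  rw [of2_0] at ha
  rw [of2_1] at hb
  rw [of2_2] at hc
  have hy0 := (y 0).toNat_le
  have hy1 := (y 1).toNat_le
  have hy2 := (y 2).toNat_le
  by_cases hall : y 0 = true ∧ y 1 = true
  · exfalso
    obtain ⟨e0, e1⟩ := hall
    have hs : ∀ j < 8, f j % 4 = (j + 2) % 4 := by
      intro j hj
      refine shift2 j hj (f j) (h1 j hj) ?_ ?_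
      · rw [h4 j hj 0 (by omega), e0]; rfl
      · rw [h4 j hj 1 (by omega), e1]; rfl
    -- neighbours go to neighbours
    have hn : ∀ j < 8, adj8 (f j) (f ((j + 1) % 8)) = true := by
      intro j hj
      have hj1 : (j + 1) % 8 < 8 := Nat.mod_lt _ (by omega)
      rw [h3 j hj _ (h1 _ hj1), h2 _ hj1]
      unfold adj8
      simp
    have g0 := hs 0 (by omega)
    have g1 := hs 1 (by omega)
    have g2 := hs 2 (by omega)
    have b0 := h1 0 (by omega)
    have b1 := h1 1 (by omega)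
    have b2 := h1 2 (by omega)
    have n0 := hn 0 (by omega)
    have n1 := hn 1 (by omega)
    norm_num at n0 n1 g0 g1 g2
    unfold adj8 at n0 n1
    rw [Bool.or_eq_true, decide_eq_true_eq, decide_eq_true_eq] at n0 n1
    have i0 := h2 0 (by omega)
    have i2 := h2 2 (by omega)
    have c0 : f 0 = 2 ∨ f 0 = 6 := by omega
    rcases c0 with c0 | c0
    · rw [c0] at i0
      omega
    · have c2 : f 2 = 0 := by omega
      rw [c2] at i2
      omega
  · unfold one3
    have hmod : ((y 0).toNat + (y 1).toNat + (y 2).toNat) % 2 = 1 := by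
      omega
    revert hall hmod
    cases y 0 <;> cases y 1 <;> cases y 2 <;> simp

/-! ### The coloured structure -/

section

variable (P G : ℕ) (lv : ℕ → ℕ → ℕ) (ln : ℕ → ℕ → Bool)

/-- The vertices: pairs `(0, c, k)` with `k < 2` and cycles `(1, g, j)` with `j < 8`. -/
def VLs : List Vx :=
  ((List.range P).flatMap fun c => [(0, c, 0), (0, c, 1)]) ++
    (List.range G).flatMap fun g => (List.range 8).map fun j => (1, g, j)

/-- The colour of a vertex. -/
def cls (v : Vx) : ℕ := if v.1 = 0 then v.2.1 else P + v.2.1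

/-- The offset of a literal. -/
def ofs (g t : ℕ) : ℕ := of2 t + (ln g t).toNat

/-- The link between cycles and pairs; `r` is `0` from the cycle to the pair, and `1` in the other
direction. -/
def link (g c j k r : ℕ) : Bool :=
  (decide (lv g 0 = c) && decide (k = (ff 0 j + r * ofs ln g 0) % 2)) ||
    ((decide (lv g 1 = c) && decide (k = (ff 1 j + r * ofs ln g 1) % 2)) ||
      (decide (lv g 2 = c) && decide (k = (ff 2 j + r * ofs ln g 2) % 2)))

/-- The relation. -/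
def BB (x y : Vx) : Bool :=
  if x.1 = 0 then (if y.1 = 0 then false else link lv ln y.2.1 x.2.1 y.2.2 x.2.2 1)
  else if y.1 = 0 then link lv ln x.2.1 y.2.1 x.2.2 y.2.2 0
  else decide (x.2.1 = y.2.1) && adj8 x.2.2 y.2.2

variable {P G lv ln}

theorem mem_VLs {v : Vx} : v ∈ VLs P G ↔
    (v.1 = 0 ∧ v.2.1 < P ∧ v.2.2 < 2) ∨ (v.1 = 1 ∧ v.2.1 < G ∧ v.2.2 < 8) := by
  unfold VLs
  simp only [List.mem_append, List.mem_flatMap, List.mem_range, List.mem_cons, List.mem_map,
    List.not_mem_nil, or_false]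
  constructor
  · rintro (⟨c, hc, rfl | rfl⟩ | ⟨g, hg, j, hj, rfl⟩)
    · exact Or.inl ⟨rfl, hc, by simp⟩
    · exact Or.inl ⟨rfl, hc, by simp⟩
    · exact Or.inr ⟨rfl, hg, hj⟩
  · obtain ⟨t, c, k⟩ := v
    rintro (⟨h1, h2, h3⟩ | ⟨h1, h2, h3⟩)
    · simp only at h1 h2 h3
      subst h1
      refine Or.inl ⟨c, h2, ?_⟩
      interval_cases k <;> simp
    · simp only at h1 h2 h3
      subst h1
      exact Or.inr ⟨c, h2, k, h3, rfl⟩

theorem length_VLs : (VLs P G).length = 2 * P + 8 * G := by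
  unfold VLs
  rw [List.length_append, List.length_flatMap, List.length_flatMap]
  simp
  ring

theorem nodup_VLs : (VLs P G).Nodup := by
  unfold VLs
  rw [List.nodup_append]
  refine ⟨?_, ?_, ?_⟩
  · rw [List.nodup_flatMap]
    refine ⟨fun c _ => by simp, ?_⟩
    refine List.nodup_range.pairwise_of_forall_ne (fun s _ t _ hst => ?_)
    intro x hx hx'
    simp only [List.mem_cons, List.not_mem_nil, or_false] at hx hx'
    rcases hx with rfl | rfl <;> rcases hx' with h | h <;>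
      exact hst (Prod.mk.inj (Prod.mk.inj h).2).1
  · rw [List.nodup_flatMap]
    refine ⟨fun c _ => List.nodup_range.map (fun e e' h => (Prod.mk.inj (Prod.mk.inj h).2).2), ?_⟩
    refine List.nodup_range.pairwise_of_forall_ne (fun s _ t _ hst => ?_)
    intro x hx hx'
    simp only [List.mem_map] at hx hx'
    obtain ⟨j, _, rfl⟩ := hx
    obtain ⟨j', _, h⟩ := hx'
    exact hst (Prod.mk.inj (Prod.mk.inj h).2).1.symm
  · intro x hx y hy hxy
    subst hxy
    simp only [List.mem_flatMap, List.mem_range, List.mem_cons, List.not_mem_nil, or_false,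
      List.mem_map] at hx hy
    obtain ⟨c, _, hx⟩ := hx
    obtain ⟨g, _, j, _, hy⟩ := hy
    rcases hx with rfl | rfl <;>
    · have := (Prod.mk.inj hy).1
      omega

theorem cls_lt {v : Vx} (h : v ∈ VLs P G) : cls P v < P + G := by
  unfold cls
  rcases mem_VLs.1 h with ⟨h1, h2, _⟩ | ⟨h1, h2, _⟩
  · rw [if_pos h1]; omega
  · rw [if_neg (by omega)]; omega

/-- The value of a literal of the cycle `g` under an assignment. -/
def lval (lv : ℕ → ℕ → ℕ) (ln : ℕ → ℕ → Bool) (τ : ℕ → Bool) (g t : ℕ) : Bool :=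
  xor (τ (lv g t)) (ln g t)

theorem link_eq {g c j k r t : ℕ} (hd : lv g 0 ≠ lv g 1 ∧ lv g 0 ≠ lv g 2 ∧ lv g 1 ≠ lv g 2)
    (ht : t < 3) (hc : lv g t = c) :
    link lv ln g c j k r = decide (k = (ff t j + r * ofs ln g t) % 2) := by
  unfold link
  subst hc
  obtain ⟨h1, h2, h3⟩ := hd
  interval_cases t
  · simp [h1.symm, h2.symm]
  · simp [h1, h3.symm]
  · simp [h2, h3]

theorem link_none {g c j k r : ℕ} (h : ∀ t < 3, lv g t ≠ c) : link lv ln g c j k r = false := by
  unfold link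
  simp [h 0 (by omega), h 1 (by omega), h 2 (by omega)]

theorem to_rho (hd : ∀ g < G, lv g 0 ≠ lv g 1 ∧ lv g 0 ≠ lv g 2 ∧ lv g 1 ≠ lv g 2)
    (τ : ℕ → Bool) (hτ : ∀ g < G, one3 (lval lv ln τ g)) :
    ∃ ρ : Vx → Vx, (∀ v ∈ VLs P G, ρ v ∈ VLs P G ∧ ρ (ρ v) = v ∧ cls P (ρ v) = cls P v) ∧
      ∀ v ∈ VLs P G, ∀ w ∈ VLs P G, BB lv ln (ρ v) w = BB lv ln (ρ w) v := by
  have hlink : ∀ g < G, ∀ c j k, j < 8 → k < 2 →
      link lv ln g c (rho (lval lv ln τ g) j) k 0 =
        link lv ln g c j ((k + (τ c).toNat) % 2) 1 := by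
    intro g hg c j k hj hk
    by_cases h : ∃ t < 3, lv g t = c
    · obtain ⟨t, ht, hc⟩ := h
      rw [link_eq (hd g hg) ht hc, link_eq (hd g hg) ht hc, decide_eq_decide,
        (rho_ok (hτ g hg) j hj).2.2.2 t ht]
      unfold ofs lval
      rw [hc]
      have h1 := ff_le t j
      cases τ c <;> cases ln g t <;>
        simp only [Bool.xor_false, Bool.xor_true, Bool.not_false, Bool.not_true, Bool.toNat_true,
          Bool.toNat_false] <;> omega
    · push Not at h
      rw [link_none h, link_none h]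
  refine ⟨fun v => if v.1 = 0 then (0, v.2.1, (v.2.2 + (τ v.2.1).toNat) % 2)
    else (1, v.2.1, rho (lval lv ln τ v.2.1) v.2.2), ?_, ?_⟩
  · intro v hv
    obtain ⟨t, c, k⟩ := v
    rcases mem_VLs.1 hv with ⟨h1, h2, h3⟩ | ⟨h1, h2, h3⟩
    · simp only at h1 h2 h3
      subst h1
      simp only [if_true]
      refine ⟨mem_VLs.2 (Or.inl ⟨rfl, h2, Nat.mod_lt _ (by omega)⟩), ?_, rfl⟩
      cases τ c <;> interval_cases k <;> rfl
    · simp only at h1 h2 h3
      subst h1
      simp only [one_ne_zero, if_false]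
      obtain ⟨h4, h5, _⟩ := rho_ok (hτ c h2) k h3
      refine ⟨mem_VLs.2 (Or.inr ⟨rfl, h2, h4⟩), ?_, rfl⟩
      rw [h5]
  · intro v hv w hw
    obtain ⟨t, c, k⟩ := v
    obtain ⟨t', c', k'⟩ := w
    rcases mem_VLs.1 hv with ⟨h1, h2, h3⟩ | ⟨h1, h2, h3⟩ <;>
      rcases mem_VLs.1 hw with ⟨h1', h2', h3'⟩ | ⟨h1', h2', h3'⟩ <;>
      simp only at h1 h2 h3 h1' h2' h3' <;> subst h1 <;> subst h1'
    · simp [BB]
    · simp only [BB, if_true, one_ne_zero, if_false]
      exact (hlink c' h2' c k' k h3' h3).symm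
    · simp only [BB, if_true, one_ne_zero, if_false]
      exact hlink c h2 c' k k' h3 h3'
    · simp only [BB, one_ne_zero, if_false]
      by_cases hcc : c = c'
      · subst hcc
        rw [(rho_ok (hτ c h2) k h3).2.2.1 k' h3']
      · have hcc' : ¬ c' = c := fun h => hcc h.symm
        simp [hcc, hcc']

theorem of_rho (hd : ∀ g < G, lv g 0 ≠ lv g 1 ∧ lv g 0 ≠ lv g 2 ∧ lv g 1 ≠ lv g 2)
    (hP : ∀ g < G, ∀ t < 3, lv g t < P) {ρ : Vx → Vx}
    (h1 : ∀ v ∈ VLs P G, ρ v ∈ VLs P G ∧ ρ (ρ v) = v ∧ cls P (ρ v) = cls P v)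
    (h2 : ∀ v ∈ VLs P G, ∀ w ∈ VLs P G, BB lv ln (ρ v) w = BB lv ln (ρ w) v) :
    ∃ τ : ℕ → Bool, ∀ g < G, one3 (lval lv ln τ g) := by
  -- pairs
  have hpair : ∀ c < P, ∀ k < 2, ∃ k' < 2, ρ (0, c, k) = (0, c, k') := by
    intro c hc k hk
    have hm : ((0, c, k) : Vx) ∈ VLs P G := mem_VLs.2 (Or.inl ⟨rfl, hc, hk⟩)
    obtain ⟨h3, _, h5⟩ := h1 _ hm
    have h6 : cls P (0, c, k) = c := by simp [cls]
    rw [h6] at h5
    generalize ρ (0, c, k) = w at h3 h5 ⊢
    obtain ⟨t, c', k'⟩ := w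
    rcases mem_VLs.1 h3 with ⟨e1, e2, e3⟩ | ⟨e1, e2, e3⟩ <;> simp only at e1 e2 e3 <;> subst e1
    · simp only [cls, if_true] at h5
      subst h5
      exact ⟨k', e3, rfl⟩
    · simp only [cls, one_ne_zero, if_false] at h5
      omega
  have hcyc : ∀ g < G, ∀ j < 8, ∃ j' < 8, ρ (1, g, j) = (1, g, j') := by
    intro c hc k hk
    have hm : ((1, c, k) : Vx) ∈ VLs P G := mem_VLs.2 (Or.inr ⟨rfl, hc, hk⟩)
    obtain ⟨h3, _, h5⟩ := h1 _ hm
    have h6 : cls P (1, c, k) = P + c := by simp [cls]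
    rw [h6] at h5
    generalize ρ (1, c, k) = w at h3 h5 ⊢
    obtain ⟨t, c', k'⟩ := w
    rcases mem_VLs.1 h3 with ⟨e1, e2, e3⟩ | ⟨e1, e2, e3⟩ <;> simp only at e1 e2 e3 <;> subst e1
    · simp only [cls, if_true] at h5
      omega
    · simp only [cls, one_ne_zero, if_false] at h5
      have : c' = c := by omega
      subst this
      exact ⟨k', e3, rfl⟩
  -- the assignment
  refine ⟨fun c => decide (ρ (0, c, 0) = (0, c, 1)), fun g hg => ?_⟩
  have hval : ∀ c < P, ∀ k < 2, ρ (0, c, k) =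
      (0, c, (k + (decide (ρ (0, c, 0) = (0, c, 1))).toNat) % 2) := by
    intro c hc k hk
    obtain ⟨k0, hk0, e0⟩ := hpair c hc 0 (by omega)
    obtain ⟨k1, hk1, e1⟩ := hpair c hc 1 (by omega)
    by_cases hz : ρ (0, c, 0) = (0, c, 1)
    · have hz' : ρ (0, c, 1) = (0, c, 0) := by
        have i0 := (h1 _ (mem_VLs.2 (Or.inl ⟨rfl, hc, by simp⟩) : ((0, c, 0) : Vx) ∈ VLs P G)).2.1
        rwa [hz] at i0
      rw [decide_eq_true hz]
      interval_cases k
      · exact hz
      · exact hz'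
    · rw [decide_eq_false hz]
      have hk00 : k0 = 0 := by
        by_contra hne
        exact hz (by rw [e0, show k0 = 1 by omega])
      have hk11 : k1 = 1 := by
        by_contra hne
        have i1 := (h1 _ (mem_VLs.2 (Or.inl ⟨rfl, hc, by simp⟩) : ((0, c, 1) : Vx) ∈ VLs P G)).2.1
        rw [e1, show k1 = 0 by omega] at i1
        exact hz i1
      subst hk00
      subst hk11
      interval_cases k
      · exact e0
      · exact e1
  set f : ℕ → ℕ := fun j => (ρ (1, g, j)).2.2 with hf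
  have hfj : ∀ j < 8, ρ (1, g, j) = (1, g, f j) ∧ f j < 8 := by
    intro j hj
    obtain ⟨j', hj', e⟩ := hcyc g hg j hj
    simp only [hf]
    rw [e]
    exact ⟨rfl, hj'⟩
  have hmc : ∀ j < 8, ((1, g, j) : Vx) ∈ VLs P G := fun j hj => mem_VLs.2 (Or.inr ⟨rfl, hg, hj⟩)
  refine rho_sound (f := f) (fun j hj => (hfj j hj).2) ?_ ?_ ?_
  · intro j hj
    have := (h1 _ (hmc j hj)).2.1
    rw [(hfj j hj).1, (hfj _ (hfj j hj).2).1] at this
    exact (Prod.mk.inj (Prod.mk.inj this).2).2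
  · intro j hj k hk
    have := h2 _ (hmc j hj) _ (hmc k hk)
    rw [(hfj j hj).1, (hfj k hk).1] at this
    simpa [BB] using this
  · intro j hj t ht
    have hc : lv g t < P := hP g hg t ht
    have key : ∀ k < 2, (k = ff t (f j) ↔
        (k + (decide (ρ (0, lv g t, 0) = (0, lv g t, 1))).toNat) % 2 =
          (ff t j + ofs ln g t) % 2) := by
      intro k hk
      have := h2 _ (hmc j hj) (0, lv g t, k) (mem_VLs.2 (Or.inl ⟨rfl, hc, hk⟩))
      rw [(hfj j hj).1, hval _ hc k hk] at this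
      simp only [BB, one_ne_zero, if_false, if_true] at this
      rw [link_eq (hd g hg) ht rfl, link_eq (hd g hg) ht rfl, decide_eq_decide] at this
      have hff := ff_le t (f j)
      rw [Nat.zero_mul, Nat.add_zero, Nat.mod_eq_of_lt hff, Nat.one_mul] at this
      exact this
    have h3 := (key (ff t (f j)) (ff_le _ _)).1 rfl
    have h4 := ff_le t (f j)
    have h5 := ff_le t j
    unfold ofs at h3
    show ff t (f j) = (ff t j + of2 t +
      (xor (decide (ρ (0, lv g t, 0) = (0, lv g t, 1))) (ln g t)).toNat) % 2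
    generalize decide (ρ (0, lv g t, 0) = (0, lv g t, 1)) = d at h3 ⊢
    revert h3
    cases d <;> cases ln g t <;>
      simp only [Bool.xor_false, Bool.xor_true, Bool.not_false, Bool.not_true, Bool.toNat_true,
          Bool.toNat_false] <;> omega

end

end Pool.Agent.R534.MSym
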